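import Pool.Agent.H20.KH.Stmts

/-!
# Full KLS, analytic half of Part C: definitions (shared with Parts A and B)

`DL l F` is the iterated directional derivative of `F` in the directions of the list `l`,
`ND U ψ l s θ` the iterated `θ`-derivative of the posterior mean of `ψ`, that is the joint cumulant
of `ψ` and the linear functions of the list `l` under the posterior measure.
-/

set_option autoImplicit false

open MeasureTheory Set Filter Topology
open scoped ContDiff

namespace Pool.Agent.H89.KD

open Pool.Agent.H84 Pool.Agent.H84.Sym Pool.Agent.H84.Sym.P2x Pool.Agent.H19.KL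
open Pool.Agent.H73.KG Pool.Agent.H20.KH

section defs

variable {E : Type} [NormedAddCommGroup E] [InnerProductSpace ℝ E]

/-- iterated directional derivative -/
noncomputable def DL : List E → (E → ℝ) → E → ℝ
  | [], F => F
  | v :: l, F => D v (DL l F)

@[simp] theorem DL_nil (F : E → ℝ) : DL [] F = F := rfl

theorem DL_cons (v : E) (l : List E) (F : E → ℝ) : DL (v :: l) F = D v (DL l F) := rfl

variable [FiniteDimensional ℝ E] [MeasurableSpace E] [BorelSpace E]

/-- iterated derivative of the posterior mean -/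
noncomputable def ND (U ψ : E → ℝ) (l : List E) (s : ℝ) (θ : E) : ℝ :=
  DL l (fun θ => pm U s θ ψ) θ

theorem ND_nil (U ψ : E → ℝ) (s : ℝ) (θ : E) : ND U ψ [] s θ = pm U s θ ψ := rfl

theorem ND_cons (U ψ : E → ℝ) (v : E) (l : List E) (s : ℝ) (θ : E) :
    ND U ψ (v :: l) s θ = D v (fun θ => ND U ψ l s θ) θ := rfl

/-- the list of the basis vectors of a word -/
def wl {ι : Type} {m : ℕ} (e : ι → E) (w : Fin m → ι) : List E := List.ofFn fun j => e (w j)

/-- bound of order `m` for one measure: the `m`-th order derivatives of the means of `ψ` have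
squared Hilbert-Schmidt norm at most `K * Var ψ` -/
def KMU (U : E → ℝ) (m : ℕ) (K : ℝ) : Prop := ∀ ψ : E → ℝ, GC ψ →
  ∀ (ι : Type) [Fintype ι] (b : OrthonormalBasis ι ℝ E),
    ∑ w : Fin m → ι, (ND U ψ (wl b w) 0 0) ^ 2 ≤ K * cv U ψ ψ

end defs

/-- the result of Parts A and B -/
def KBStmt : Prop := ∃ Q : ℝ, 1 ≤ Q ∧ ∀ (E : Type) [NormedAddCommGroup E] [InnerProductSpace ℝ E]
    [FiniteDimensional ℝ E] [MeasurableSpace E] [BorelSpace E] (U : E → ℝ) (t : ℝ), PP U t →
  CovLe U 1 → ∀ m : ℕ, 1 ≤ m → KMU U m ((m.factorial : ℝ) ^ 2 * Q ^ (m - 1))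

end Pool.Agent.H89.KD
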