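import Pool.Agent.H89.KD.Defs

/-!
# Project KD (full KLS, analytic half of Part C): statements

The operators `T i = ∂_i (-L)^{-1}` and `B j i = ∂_j ∂_i (-L)^{-1}` on `L^2 (mu U)`, the functionals
`ND U ψ l 0 0` on `L^2 (mu U)`, and the Poincare inequality from the bound of the operators `T i`.

All operators are defined on the dense set of the classes of the functions `-L u + c`, `u` smooth
with compact support, `c` constant.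
-/

set_option autoImplicit false

open MeasureTheory Set Filter Topology
open scoped ContDiff

namespace Pool.Agent.H89.KD

open Pool.Agent.H84 Pool.Agent.H84.Sym Pool.Agent.H84.Sym.P2x Pool.Agent.H19.KL
open Pool.Agent.H73.KG Pool.Agent.H20.KH

section defs

variable {E : Type} [NormedAddCommGroup E] [InnerProductSpace ℝ E]
    [FiniteDimensional ℝ E] [MeasurableSpace E] [BorelSpace E]

open Classical in
/-- the class of a function in `L^2 (mu U)` (zero if the function is not square integrable) -/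
noncomputable def tL (U f : E → ℝ) : Lp ℝ 2 (mu U) :=
  if h : MemLp f 2 (mu U) then h.toLp f else 0

/-- the function `-L u + c` -/
noncomputable def XU {ι : Type} [Fintype ι] (b : OrthonormalBasis ι ℝ E) (U u : E → ℝ) (c : ℝ)
    (x : E) : ℝ := -LO b U u x + c

/-- `T i` is `∂_i (-L)^{-1}` -/
def IsT {ι : Type} [Fintype ι] (b : OrthonormalBasis ι ℝ E) (U : E → ℝ)
    (T : ι → Lp ℝ 2 (mu U) →L[ℝ] Lp ℝ 2 (mu U)) : Prop :=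
  ∀ (i : ι) (u : E → ℝ), Tst u → ∀ c : ℝ, T i (tL U (XU b U u c)) = tL U (D (b i) u)

/-- `B j i` is `∂_j ∂_i (-L)^{-1}` -/
def IsB {ι : Type} [Fintype ι] (b : OrthonormalBasis ι ℝ E) (U : E → ℝ)
    (B : ι → ι → Lp ℝ 2 (mu U) →L[ℝ] Lp ℝ 2 (mu U)) : Prop :=
  ∀ (j i : ι) (u : E → ℝ), Tst u → ∀ c : ℝ,
    B j i (tL U (XU b U u c)) = tL U (D (b j) (D (b i) u))

end defs

section stmts

variable (E : Type) [NormedAddCommGroup E] [InnerProductSpace ℝ E]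
    [FiniteDimensional ℝ E] [MeasurableSpace E] [BorelSpace E]

/-- MEM: the classes of functions of exponential growth -/
def MEMStmt : Prop := ∀ (U : E → ℝ) (t : ℝ), PP U t →
  (∀ f : E → ℝ, GC f → MemLp f 2 (mu U)) ∧
  (∀ f g : E → ℝ, GC f → GC g → tL U (fun x => f x + g x) = tL U f + tL U g) ∧
  (∀ (c : ℝ) (f : E → ℝ), GC f → tL U (fun x => c * f x) = c • tL U f) ∧
  (∀ f g : E → ℝ, GC f → GC g → inner ℝ (tL U f) (tL U g) = ∫ x, f x * g x ∂(mu U)) ∧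
  (∀ f : E → ℝ, GC f → ‖tL U f‖ ^ 2 = ∫ x, f x ^ 2 ∂(mu U)) ∧
  ‖tL U (fun _ => (1:ℝ))‖ = 1

/-- TSF: elementary facts on test functions -/
def TSFStmt : Prop := ∀ (U : E → ℝ) (t : ℝ), PP U t → ∀ (ι : Type) [Fintype ι]
  (b : OrthonormalBasis ι ℝ E),
  (∀ u : E → ℝ, Tst u → GC u ∧ GC (LO b U u) ∧ (∀ c : ℝ, GC (XU b U u c)) ∧
    (∀ e : E, Tst (D e u) ∧ GC (D e u)) ∧ ∀ i j, D (b j) (D (b i) u) = D (b i) (D (b j) u)) ∧
  (∀ u v : E → ℝ, Tst u → Tst v → Tst (fun x => u x + v x) ∧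
    LO b U (fun x => u x + v x) = (fun x => LO b U u x + LO b U v x) ∧
    ∀ e : E, D e (fun x => u x + v x) = fun x => D e u x + D e v x) ∧
  (∀ (c : ℝ) (u : E → ℝ), Tst u → Tst (fun x => c * u x) ∧
    LO b U (fun x => c * u x) = (fun x => c * LO b U u x) ∧
    ∀ e : E, D e (fun x => c * u x) = fun x => c * D e u x)

/-- BOC: the Bochner inequality -/
def BOCStmt : Prop := ∀ (U : E → ℝ) (t : ℝ), PP U t → ∀ (ι : Type) [Fintype ι]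
  (b : OrthonormalBasis ι ℝ E) (u : E → ℝ), Tst u → ∀ c : ℝ,
  (∑ i, ∑ j, ∫ x, (D (b j) (D (b i) u) x) ^ 2 ∂(mu U)) +
    t * (∑ i, ∫ x, (D (b i) u x) ^ 2 ∂(mu U)) ≤ ∫ x, (XU b U u c x) ^ 2 ∂(mu U)

/-- GRE: the Green formulas -/
def GREStmt : Prop := ∀ (U : E → ℝ) (t : ℝ), PP U t → ∀ (ι : Type) [Fintype ι]
  (b : OrthonormalBasis ι ℝ E),
  (∀ u : E → ℝ, Tst u → ∫ x, LO b U u x ∂(mu U) = 0) ∧
  (∀ f w : E → ℝ, ContDiff ℝ 1 f → HasCompactSupport f → Tst w →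
    ∫ x, f x * (-LO b U w x) ∂(mu U) = ∑ j, ∫ x, D (b j) f x * D (b j) w x ∂(mu U)) ∧
  (∀ (e : E) (w : E → ℝ), Tst w → ∫ x, li e x * (-LO b U w x) ∂(mu U) = ∫ x, D e w x ∂(mu U))

/-- DNS: the classes of the functions `-L u + c` are dense -/
def DNSStmt : Prop := ∀ (U : E → ℝ) (t : ℝ), PP U t → ∀ (ι : Type) [Fintype ι]
  (b : OrthonormalBasis ι ℝ E) (h : Lp ℝ 2 (mu U)) (ε : ℝ), 0 < ε →
  ∃ (u : E → ℝ) (c : ℝ), Tst u ∧ ‖h - tL U (XU b U u c)‖ ≤ ε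

/-- EXO: extension of operators (use `LinearMap.extendOfNorm`) -/
def EXOStmt : Prop := ∀ (U : E → ℝ) (t : ℝ), PP U t → ∀ (ι : Type) [Fintype ι]
  (b : OrthonormalBasis ι ℝ E) (F : (E → ℝ) → E → ℝ) (C : ℝ), 0 ≤ C →
  (∀ u : E → ℝ, Tst u → GC (F u)) →
  (∀ u v : E → ℝ, Tst u → Tst v → F (fun x => u x + v x) = fun x => F u x + F v x) →
  (∀ (c : ℝ) (u : E → ℝ), Tst u → F (fun x => c * u x) = fun x => c * F u x) →
  (∀ (u : E → ℝ) (c : ℝ), Tst u →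
    ∫ x, (F u x) ^ 2 ∂(mu U) ≤ C * ∫ x, (XU b U u c x) ^ 2 ∂(mu U)) →
  ∃ T : Lp ℝ 2 (mu U) →L[ℝ] Lp ℝ 2 (mu U), ∀ u : E → ℝ, Tst u → ∀ c : ℝ,
    T (tL U (XU b U u c)) = tL U (F u)

/-- EXF: extension of functionals -/
def EXFStmt : Prop := ∀ (U : E → ℝ) (t : ℝ), PP U t → ∀ (Φ : (E → ℝ) → ℝ) (K : ℝ), 0 ≤ K →
  (∀ f g : E → ℝ, GC f → GC g → Φ (fun x => f x + g x) = Φ f + Φ g) →
  (∀ (c : ℝ) (f : E → ℝ), GC f → Φ (fun x => c * f x) = c * Φ f) →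
  (∀ f : E → ℝ, GC f → (Φ f) ^ 2 ≤ K * ∫ x, (f x) ^ 2 ∂(mu U)) →
  ∃ P : Lp ℝ 2 (mu U) →L[ℝ] ℝ, ∀ f : E → ℝ, GC f → P (tL U f) = Φ f

/-- OPS: the operators exist -/
def OPSStmt : Prop := ∀ (U : E → ℝ) (t : ℝ), PP U t → ∀ (ι : Type) [Fintype ι]
  (b : OrthonormalBasis ι ℝ E),
  (∃ T : ι → Lp ℝ 2 (mu U) →L[ℝ] Lp ℝ 2 (mu U), IsT b U T) ∧
  ∃ B : ι → ι → Lp ℝ 2 (mu U) →L[ℝ] Lp ℝ 2 (mu U), IsB b U B

/-- PRO: properties of the operators (by density) -/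
def PROStmt : Prop := ∀ (U : E → ℝ) (t : ℝ), PP U t → ∀ (ι : Type) [Fintype ι]
  (b : OrthonormalBasis ι ℝ E) (T : ι → Lp ℝ 2 (mu U) →L[ℝ] Lp ℝ 2 (mu U))
  (B : ι → ι → Lp ℝ 2 (mu U) →L[ℝ] Lp ℝ 2 (mu U)), IsT b U T → IsB b U B →
  (∀ i j h, B i j h = B j i h) ∧
  (∀ h, (∑ i, ∑ j, ‖B j i h‖ ^ 2) + t * (∑ i, ‖T i h‖ ^ 2) ≤ ‖h‖ ^ 2) ∧
  (∀ i h g, inner ℝ (tL U (fun _ => (1:ℝ))) g = (0:ℝ) →
    inner ℝ (T i h) g = ∑ j, (inner ℝ (B j i h) (T j g) : ℝ)) ∧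
  (∀ i h, inner ℝ (tL U (fun _ => (1:ℝ))) h = (0:ℝ) →
    (inner ℝ (tL U (fun _ => (1:ℝ))) (T i h) : ℝ) = inner ℝ (tL U (li (b i))) h)

/-- NDL: linearity of `ND` and the first derivative -/
def NDLStmt : Prop := ∀ (U : E → ℝ) (t : ℝ), PP U t →
  (∀ (f g : E → ℝ) (l : List E), GC f → GC g →
    ND U (fun x => f x + g x) l 0 0 = ND U f l 0 0 + ND U g l 0 0) ∧
  (∀ (c : ℝ) (f : E → ℝ) (l : List E), GC f →
    ND U (fun x => c * f x) l 0 0 = c * ND U f l 0 0) ∧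
  (∀ (c : ℝ) (l : List E), l ≠ [] → ND U (fun _ => c) l 0 0 = 0) ∧
  ∀ (ψ : E → ℝ) (v : E), GC ψ → ND U ψ [v] 0 0 = cv U ψ (li v)

/-- NDS: the iterated derivatives do not depend on the order -/
def NDSStmt : Prop := ∀ (U : E → ℝ) (t : ℝ), PP U t → ∀ ψ : E → ℝ, GC ψ →
  ∀ l l' : List E, l.Perm l' → ND U ψ l 0 0 = ND U ψ l' 0 0

/-- IBT: integration by parts for the tilted measures -/
def IBTStmt : Prop := ∀ (U : E → ℝ) (t : ℝ), PP U t → ∀ (ι : Type) [Fintype ι]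
  (b : OrthonormalBasis ι ℝ E) (u : E → ℝ), Tst u → ∀ θ : E,
  pm U 0 θ (fun x => -LO b U u x) = ∑ i, inner ℝ (b i) θ * pm U 0 θ (D (b i) u)

/-- LEI: the rule of Leibniz for the product with a linear function -/
def LEIStmt : Prop := ∀ (v : E) (F : E → ℝ), ContDiff ℝ ∞ F → ∀ (l : List E) (θ : E),
  DL l (fun θ => inner ℝ v θ * F θ) θ = inner ℝ v θ * DL l F θ +
    ∑ i : Fin l.length, inner ℝ v (l.get i) * DL (l.eraseIdx i) F θ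

/-- NDR: the relation between the derivatives of order `m` and `m - 1` -/
def NDRStmt : Prop := ∀ (U : E → ℝ) (t : ℝ), PP U t → ∀ (ι : Type) [Fintype ι]
  (b : OrthonormalBasis ι ℝ E) (u : E → ℝ), Tst u → ∀ l : List E,
  ND U (fun x => -LO b U u x) l 0 0 =
    ∑ i : Fin l.length, ND U (D (l.get i) u) (l.eraseIdx i) 0 0

/-- NDP: the functionals on `L^2` -/
def NDPStmt : Prop := ∀ (U : E → ℝ) (t : ℝ), PP U t → CovLe U 1 → ∀ Q : ℝ, 1 ≤ Q →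
  (∀ m : ℕ, 1 ≤ m → KMU U m ((m.factorial : ℝ) ^ 2 * Q ^ (m - 1))) →
  ∀ (ι : Type) [Fintype ι] (b : OrthonormalBasis ι ℝ E)
  (T : ι → Lp ℝ 2 (mu U) →L[ℝ] Lp ℝ 2 (mu U)), IsT b U T →
  ∃ P : (m : ℕ) → (Fin m → ι) → Lp ℝ 2 (mu U) →L[ℝ] ℝ,
    (∀ (m : ℕ) (w : Fin m → ι) (σ : Equiv.Perm (Fin m)) h, 1 ≤ m → P m (w ∘ σ) h = P m w h) ∧
    (∀ (w : Fin 1 → ι) h, P 1 w h = inner ℝ (tL U (fun _ => (1:ℝ))) (T (w 0) h)) ∧
    (∀ (m : ℕ) (w : Fin (m + 2) → ι) h, P (m + 2) w h = ∑ s : Fin (m + 2),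
      P (m + 1) (s.removeNth w) (T (w s) h -
        (inner ℝ (tL U (fun _ => (1:ℝ))) (T (w s) h) : ℝ) • tL U (fun _ => (1:ℝ)))) ∧
    (∀ (m : ℕ), 1 ≤ m → ∀ h, ∑ w : Fin m → ι, (P m w h) ^ 2 ≤
      (m.factorial : ℝ) ^ 2 * Q ^ (m - 1) * ‖h‖ ^ 2)

/-- GPF: the Poincare inequality from the bound of the operators -/
def GPFStmt : Prop := ∀ (U : E → ℝ) (t : ℝ), PP U t → ∀ (ι : Type) [Fintype ι]
  (b : OrthonormalBasis ι ℝ E) (T : ι → Lp ℝ 2 (mu U) →L[ℝ] Lp ℝ 2 (mu U)), IsT b U T →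
  ∀ C : ℝ, 0 ≤ C →
  (∀ h, inner ℝ (tL U (fun _ => (1:ℝ))) h = (0:ℝ) → ∑ i, ‖T i h‖ ^ 2 ≤ C * ‖h‖ ^ 2) →
  GPC (mu U) C

end stmts

end Pool.Agent.H89.KD
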