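import Pool.Agent.H89.KD.Stmts
import Pool.Agent.H18.KC.Stmts
import Pool.Agent.H20.KF.Tail

/-!
# Full KLS: from Parts A, B, C to the Poincare inequality with a universal constant
-/

set_option autoImplicit false

open MeasureTheory Set Filter Topology
open scoped ContDiff

namespace Pool.Agent.H89.KD

open Pool.Agent.H84 Pool.Agent.H84.Sym Pool.Agent.H84.Sym.P2x Pool.Agent.H19.KL
open Pool.Agent.H73.KG Pool.Agent.H20.KH

section

variable {E : Type} [NormedAddCommGroup E] [InnerProductSpace ℝ E]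
    [FiniteDimensional ℝ E] [MeasurableSpace E] [BorelSpace E]

/-- the abstract data of Part C on `L^2 (mu U)` -/
theorem dat_of (hMEM : MEMStmt E) (hPRO : PROStmt E) (hNDP : NDPStmt E)
    {U : E → ℝ} {t Q : ℝ} (hU : PP U t) (hc : CovLe U 1) (hQ : 1 ≤ Q)
    (hK : ∀ m : ℕ, 1 ≤ m → KMU U m ((m.factorial : ℝ) ^ 2 * Q ^ (m - 1)))
    {ι : Type} [Fintype ι] (b : OrthonormalBasis ι ℝ E)
    (T : ι → Lp ℝ 2 (mu U) →L[ℝ] Lp ℝ 2 (mu U)) (hT : IsT b U T)
    (B : ι → ι → Lp ℝ 2 (mu U) →L[ℝ] Lp ℝ 2 (mu U)) (hB : IsB b U B) :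
    ∃ D : Pool.Agent.H18.KC.Dat ι (Lp ℝ 2 (mu U)) t Q,
      D.e = tL U (fun _ => (1:ℝ)) ∧ ∀ i h, D.T i h = T i h := by
  obtain ⟨h1, h2, h3, h4⟩ := hPRO U t hU ι b T B hT hB
  obtain ⟨P, p1, p2, p3, p4⟩ := hNDP U t hU hc Q hQ hK ι b T hT
  have he : ‖tL U (fun _ => (1:ℝ))‖ = 1 := (hMEM U t hU).2.2.2.2.2
  have ht : 0 < t := by
    obtain ⟨⟨C, hC⟩, -⟩ := hU
    exact hC.pos
  refine ⟨{ e := tL U (fun _ => (1:ℝ))
            T := fun i => (T i).toLinearMap
            B := fun j i => (B j i).toLinearMap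
            P := fun m w => (P m w).toLinearMap
            ht := ht
            hQ := hQ
            he := he
            symB := fun j i h => h1 j i h
            boch := ?_
            dual := ?_
            symP := ?_
            Pone := ?_
            Prel := ?_
            Pbd := ?_ }, rfl, fun i h => rfl⟩
  · intro h _
    rw [Finset.sum_comm]
    exact h2 h
  · intro h g _ hg i
    exact h3 i h g hg
  · intro m σ a h
    rcases Nat.eq_zero_or_pos m with hm | hm
    · subst hm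
      have : a ∘ σ = a := Subsingleton.elim _ _
      rw [this]
    · exact p1 m a σ h hm
  · intro i h _
    exact (p2 (fun _ => i) h).symm
  · intro m a h _
    exact p3 m a h
  · intro m h _
    have := p4 (m + 1) (by omega) h
    simpa using this

/-- the Poincare inequality for one measure -/
theorem gpc_of (hMAIN : Pool.Agent.H18.KC.MAINStmt) (hMEM : MEMStmt E) (hOPS : OPSStmt E)
    (hPRO : PROStmt E) (hNDP : NDPStmt E) (hGPF : GPFStmt E)
    {U : E → ℝ} {t Q : ℝ} (hU : PP U t) (hc : CovLe U 1) (hQ : 1 ≤ Q)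
    (hK : ∀ m : ℕ, 1 ≤ m → KMU U m ((m.factorial : ℝ) ^ 2 * Q ^ (m - 1))) :
    GPC (mu U) (10 ^ 9 * Q + 1) := by
  let b := stdOrthonormalBasis ℝ E
  obtain ⟨⟨T, hT⟩, ⟨B, hB⟩⟩ := hOPS U t hU _ b
  obtain ⟨D, hDe, hDT⟩ := dat_of hMEM hPRO hNDP hU hc hQ hK b T hT B hB
  refine hGPF U t hU _ b T hT _ (by positivity) fun h hh => ?_
  have := hMAIN _ _ t Q D h (by rw [hDe]; exact hh)
  simpa only [hDT] using this

end

/-- full KLS for uniformly log-concave measures, from the modules -/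
theorem kls_of (hMAIN : Pool.Agent.H18.KC.MAINStmt) (hKB : KBStmt)
    (hMEM : ∀ (E : Type) [NormedAddCommGroup E] [InnerProductSpace ℝ E]
      [FiniteDimensional ℝ E] [MeasurableSpace E] [BorelSpace E], MEMStmt E)
    (hOPS : ∀ (E : Type) [NormedAddCommGroup E] [InnerProductSpace ℝ E]
      [FiniteDimensional ℝ E] [MeasurableSpace E] [BorelSpace E], OPSStmt E)
    (hPRO : ∀ (E : Type) [NormedAddCommGroup E] [InnerProductSpace ℝ E]
      [FiniteDimensional ℝ E] [MeasurableSpace E] [BorelSpace E], PROStmt E)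
    (hNDP : ∀ (E : Type) [NormedAddCommGroup E] [InnerProductSpace ℝ E]
      [FiniteDimensional ℝ E] [MeasurableSpace E] [BorelSpace E], NDPStmt E)
    (hGPF : ∀ (E : Type) [NormedAddCommGroup E] [InnerProductSpace ℝ E]
      [FiniteDimensional ℝ E] [MeasurableSpace E] [BorelSpace E], GPFStmt E) :
    Pool.Agent.H20.KF.KLSStmt := by
  obtain ⟨Q, hQ, hK⟩ := hKB
  refine ⟨10 ^ 9 * Q + 1, by nlinarith, fun E _ _ _ _ _ U t hU hc => ?_⟩
  exact gpc_of hMAIN (hMEM E) (hOPS E) (hPRO E) (hNDP E) (hGPF E) hU hc hQ (hK E U t hU hc)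

end Pool.Agent.H89.KD
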