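import Pool.Agent.H1.KD.MEM
import Pool.Agent.H15.KD.IBT
import Pool.Agent.H2.KD.BOC
import Pool.Agent.H2.KD.GPF
import Pool.Agent.H31.KD.NDR
import Pool.Agent.H34.KD.LEI
import Pool.Agent.H48.KD.TSF
import Pool.Agent.H49.KD.GRE
import Pool.Agent.H52.KB.Bridge
import Pool.Agent.H59.KD.DNS
import Pool.Agent.H65.KD.EXF
import Pool.Agent.H7.KD.PRO
import Pool.Agent.H87.KD.OPS
import Pool.Agent.H88.KD.EXO
import Pool.Agent.H96.KD.NDP
import Pool.Agent.H89.KD.Final
import Pool.Agent.H18.KC.All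

/-!
# Part C of the KLS proof: all modules plugged in

From the bounds of all orders (`KBStmt`, Parts A and B) to the Poincare inequality with a universal
constant.
-/

set_option autoImplicit false

namespace Pool.Agent.H89.KD.All

open Pool.Agent.H89.KD

section

variable (E : Type) [NormedAddCommGroup E] [InnerProductSpace ℝ E]
    [FiniteDimensional ℝ E] [MeasurableSpace E] [BorelSpace E]

theorem aMEM : MEMStmt E := Pool.Agent.H1.KD.mem E

theorem aTSF : TSFStmt E := TSF_thm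

theorem aDNS : DNSStmt E := Pool.Agent.H59.KD.dns_thm (aMEM E) (aTSF E)

theorem aOPS : OPSStmt E :=
  ops_thm (exo_thm E (aMEM E) (aTSF E) (aDNS E)) (aTSF E) (boc_thm E)

theorem aPRO : PROStmt E := pro_thm E (aMEM E) (aTSF E) (boc_thm E) (gre_thm E) (aDNS E)

theorem aNDR : NDRStmt E := ndr_thm E ibt_thm Pool.Agent.H34.KD.lei_thm

theorem aNDP : NDPStmt E :=
  Pool.Agent.H96.KD.ndp_thm (exf_thm E (aMEM E)) (Pool.Agent.H52.KB.ndl_thm E)
    (Pool.Agent.H52.KB.nds_thm E) (aNDR E) (aMEM E) (aTSF E) (aDNS E)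

theorem aGPF : GPFStmt E := gpf_thm E (aMEM E) (aTSF E) (aDNS E) (gre_thm E)

end

/-- Part C: the bounds of all orders imply the Poincare inequality with a universal constant -/
theorem kls (hKB : KBStmt) : Pool.Agent.H20.KF.KLSStmt :=
  kls_of Pool.Agent.H18.KC.main hKB (fun E _ _ _ _ _ => aMEM E) (fun E _ _ _ _ _ => aOPS E)
    (fun E _ _ _ _ _ => aPRO E) (fun E _ _ _ _ _ => aNDP E) (fun E _ _ _ _ _ => aGPF E)

end Pool.Agent.H89.KD.All
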